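import Pool.Agent.K4H51.PTM.Min

set_option autoImplicit false

/-!
# Minimal prime divisors with `h¹ ≠ 0`

Let `X` be the blow-up of the plane at `s ≥ 4` generic points over a field of characteristic zero,
and let `C` be a prime divisor on `X` with `h¹ (C) > 0`, of degree `d` and with multiplicities `w`.
Then there is a prime divisor `C1` on the blow-up at `t` generic points, `10 ≤ t ≤ s`, of degree
`e ≤ d` and with multiplicities `u`, each at most the multiplicity of `C` at a point (different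
points for different indices), such that

* the class `(e; u)` is standard, `0 < h¹ (C1) ≤ h¹ (C)` and `h⁰ (C) ≤ h⁰ (C1)`;
* leaving out any nonempty set of points gives a class with `h¹ = 0`;
* `h¹ (C1) ≤ binom b 2` and `h⁰ (C1) ≤ (u₁ - 1) (b - 1)` for the smallest multiplicity `b` and the
  largest multiplicity `u₁` of `C1`; in particular `b ≥ 2`.

Hence the conjecture of Segre, Harbourne, Gimigliano and Hirschowitz for prime divisors holds if it
holds for these prime divisors.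
-/

namespace Pool.Agent.Results.MP_0dccba_ag.PrimeMinimal

open MvPolynomial Pool.Agent.TH167 Pool.Agent.TH167.SHDefs

/-- `h⁰` of the class `d H - ∑ w i E i`: the dimension of the space of the forms of degree `d` with
multiplicity at least `w i` at `P i`. -/
noncomputable def hZero {K : Type} [Field K] {s : ℕ} (P : Fin s → Fin 2 → K) (d : ℕ)
    (w : Fin s → ℕ) : ℕ := Module.finrank K ↥(sys P d w)

/-- The Euler characteristic of the class `d H - ∑ w i E i`. -/
def chi {s : ℕ} (d : ℕ) (w : Fin s → ℕ) : ℤ :=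
  ((d + 2).choose 2 : ℤ) - ∑ i, ((w i + 1).choose 2 : ℤ)

/-- `h¹` of the class `d H - ∑ w i E i`. -/
noncomputable def hOne {K : Type} [Field K] {s : ℕ} (P : Fin s → Fin 2 → K) (d : ℕ)
    (w : Fin s → ℕ) : ℤ := hZero P d w - chi d w

/-- The class `(d; w)` is standard. -/
def Standard {s : ℕ} (d : ℕ) (w : Fin s → ℕ) : Prop :=
  ∀ i j k : Fin s, i ≠ j → i ≠ k → j ≠ k → w i + w j + w k ≤ d

/-- The multiplicities outside of the set `T` are set to zero. -/
def restrict {s : ℕ} (w : Fin s → ℕ) (T : Finset (Fin s)) : Fin s → ℕ :=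
  fun i => if i ∈ T then w i else 0

theorem chi_eq {s : ℕ} (d : ℕ) (w : Fin s → ℕ) : chi d w = SH.chi d w := rfl

theorem hZero_eq {K : Type} [Field K] [CharZero K] {s : ℕ} {P : Fin s → Fin 2 → K}
    (hP : AlgebraicIndependent ℚ (fun ij : Fin s × Fin 2 => P ij.1 ij.2)) (d : ℕ)
    (w : Fin s → ℕ) : hZero P d w = Pool.Agent.K4H28.SP.gd w d := by
  unfold hZero
  rw [SH.sys_eq]
  exact Pool.Agent.K4H51.PTM.vs_gd hP w d

theorem hOne_eq {K : Type} [Field K] [CharZero K] {s : ℕ} {P : Fin s → Fin 2 → K}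
    (hP : AlgebraicIndependent ℚ (fun ij : Fin s × Fin 2 => P ij.1 ij.2)) (d : ℕ)
    (w : Fin s → ℕ) : hOne P d w = Pool.Agent.K4H51.PTM.h1 d w := by
  unfold hOne Pool.Agent.K4H51.PTM.h1
  rw [hZero_eq hP, chi_eq]

/-- **Main result.** -/
theorem result (K : Type) [Field K] [CharZero K] (s : ℕ) (hs : 4 ≤ s) (P : Fin s → Fin 2 → K)
    (hP : AlgebraicIndependent ℚ (fun ij : Fin s × Fin 2 => P ij.1 ij.2))
    (d : ℕ) (w : Fin s → ℕ) (C : MvPolynomial (Fin 3) K) (hC : Curve P C d w)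
    (h : 0 < hOne P d w) :
    ∃ (t : ℕ) (ι : Fin t → Fin s) (Q : Fin t → Fin 2 → K) (C1 : MvPolynomial (Fin 3) K) (e : ℕ)
      (u : Fin t → ℕ),
      10 ≤ t ∧ Function.Injective ι ∧
      AlgebraicIndependent ℚ (fun ij : Fin t × Fin 2 => Q ij.1 ij.2) ∧ Curve Q C1 e u ∧
      e ≤ d ∧ (∀ j, u j ≤ w (ι j)) ∧ Standard e u ∧
      0 < hOne Q e u ∧ hOne Q e u ≤ hOne P d w ∧ hZero P d w ≤ hZero Q e u ∧
      (∀ T : Finset (Fin t), T ≠ Finset.univ → hOne Q e (restrict u T) = 0) ∧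
      ∀ i, 2 ≤ u i ∧ hOne Q e u ≤ (u i).choose 2 ∧
        ∃ j, (∀ k, u k ≤ u j) ∧ hZero Q e u ≤ (u j - 1) * (u i - 1) := by
  classical
  obtain ⟨r, rfl⟩ : ∃ r, s = r + 4 := ⟨s - 4, by omega⟩
  obtain ⟨h1, h2, h3⟩ := SH.curve_iff.1 hC
  rw [hOne_eq hP] at h
  obtain ⟨t, ι, Q, e, u, C1, k1, k2, k3, k4, k5, k6, k7, k8, k9, k10, k11, k12, k13⟩ :=
    Pool.Agent.K4H51.PTM.exists_min r P hP d w C h1 h2 h3 h
  have hpos : 1 ≤ Pool.Agent.K4H28.SP.gd u e := by
    rw [← Pool.Agent.K4H51.PTM.vs_gd k2]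
    have hfin := W609.CR.vs_fin (fun j => W609.CR.aff (Q j)) u e
    have hmem : C1 ∈ W609.CR.VS (fun j => W609.CR.aff (Q j)) u e :=
      (SH.mem_VS _ _ _ _).2 ⟨k4, fun j => (k5 j).1⟩
    exact Module.finrank_pos_iff.2 ⟨⟨C1, hmem⟩, 0,
      fun h7 => k3.ne_zero (congrArg Subtype.val h7)⟩
  have hne : (Pool.Agent.K4H28.SP.gd u e : ℤ) ≠ SH.chi e u := by
    intro h4
    unfold Pool.Agent.K4H51.PTM.h1 at k10
    rw [h4, sub_self] at k10
    exact lt_irrefl _ k10
  obtain ⟨b1, -, b3⟩ := Pool.Agent.K4H51.PTM.bounds (by omega) k6 hpos hne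
  have ht : 10 ≤ t := by
    by_contra hcon
    have h9 : Pool.Agent.K4H51.PTM.nth 9 u = 0 := by
      refine Nat.le_zero.1 (Pool.Agent.K4H51.PTM.nth_le ?_)
      refine (Finset.card_le_univ _).trans ?_
      rw [Fintype.card_fin]
      omega
    rw [h9] at b1
    omega
  have hdrop : ∀ i, Pool.Agent.K4H51.PTM.h1 e u ≤ ((u i).choose 2 : ℕ) := fun i => by
    have h4 := Pool.Agent.K4H51.PTM.h1_le_update (d := e) u i hpos
    rw [k13 i, zero_add] at h4
    exact h4
  refine ⟨t, ι, Q, C1, e, u, ht, k1, k2, SH.curve_iff.2 ⟨k3, k4, k5⟩, k7, k8, k6, ?_, ?_, ?_,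
    fun T hT => ?_, fun i => ⟨?_, ?_, ?_⟩⟩
  · rw [hOne_eq k2]
    exact k10
  · rw [hOne_eq k2, hOne_eq hP]
    exact k11
  · rw [hZero_eq k2, hZero_eq hP]
    exact k12
  · obtain ⟨i, hi⟩ : ∃ i, i ∉ T := by
      by_contra hcon
      push Not at hcon
      exact hT (Finset.eq_univ_iff_forall.2 hcon)
    rw [hOne_eq k2]
    refine le_antisymm ?_ (Pool.Agent.K4H51.PTM.h1_nonneg _)
    rw [← k13 i]
    have h4 := Pool.Agent.K4H51.PTM.h1_res_le (d := e) (Function.update u i 0) Tᶜ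
    refine le_trans (le_of_eq ?_) h4
    congr 1
    funext j
    rw [compl_compl]
    unfold restrict Pool.Agent.K4H28.SP.res
    by_cases hj : j ∈ T
    · rw [if_pos hj, if_pos hj, Function.update_of_ne]
      rintro rfl
      exact hi hj
    · rw [if_neg hj, if_neg hj]
  · by_contra hcon
    have h4 := hdrop i
    have h5 : (u i).choose 2 = 0 := Nat.choose_eq_zero_of_lt (by omega)
    rw [h5] at h4
    omega
  · rw [hOne_eq k2]
    exact hdrop i
  · obtain ⟨j, hj, -⟩ := Pool.Agent.K4H51.PTM.exists_max (by omega : 0 < t) u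
    refine ⟨j, fun k => by rw [hj]; exact Pool.Agent.K4H51.PTM.le_nth_zero u k, ?_⟩
    rw [hj, hZero_eq k2]
    rcases b3 (Finset.univ \ {i}) (u i) (fun k hk => by
      have h4 : k = i := by
        by_contra h5
        exact hk (Finset.mem_sdiff.2 ⟨Finset.mem_univ _, fun h6 => h5 (Finset.mem_singleton.1 h6)⟩)
      rw [h4]) with h4 | h4
    · exfalso
      rw [Pool.Agent.K4H28.SP.res_sdiff_singleton] at h4
      have h5 := k13 i
      have h6 := Pool.Agent.K4H51.PTM.gd_le_update (d := e) u i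
      unfold Pool.Agent.K4H51.PTM.h1 at h5
      apply h4
      rw [max_eq_left]
      · omega
      · omega
    · exact h4

end Pool.Agent.Results.MP_0dccba_ag.PrimeMinimal
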