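import Pool.Agent.K4H51.PTM.One

set_option autoImplicit false

/-!
# Prime divisors: leaving out one point of largest multiplicity

Let `X` be the blow-up of the plane at `s ≥ 4` generic points over a field of characteristic zero,
and let `C` be a prime divisor on `X` of degree `d` with multiplicities `w`. There is no condition on
`s`, on `d` or on the multiplicities. Let `m₁ ≥ m₂ ≥ m₃` be the three largest multiplicities of `C`.
Leaving out one point of largest multiplicity gives a class with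
`h¹ ≤ binom (⌊(m₂ + m₃ - m₁) / 2⌋) 2`, so that `h¹ = 0` if `m₂ + m₃ ≤ m₁ + 3`.

Moreover `h¹ (C) = 0`, or finitely many quadratic transformations carry `C` to a prime divisor `C1`
(on the blow-up at other generic points) with the same `h⁰` and `h¹`, whose class `(e; u)` is
standard, whose degree and all of whose multiplicities are at most those of `C`, and the same
estimate holds for `C1` and the three largest ones of its multiplicities `u_i`.
-/

namespace Pool.Agent.Results.MP_0dccba_ag.PrimeOnePoint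

open MvPolynomial Pool.Agent.TH167 Pool.Agent.TH167.SHDefs

/-- `h⁰` of the class `d H - ∑ w i E i`: the dimension of the space of the forms of degree `d` with
multiplicity at least `w i` at `P i`. -/
noncomputable def hZero {K : Type} [Field K] {s : ℕ} (P : Fin s → Fin 2 → K) (d : ℕ)
    (w : Fin s → ℕ) : ℕ := Module.finrank K ↥(sys P d w)

/-- The Euler characteristic of the class `d H - ∑ w i E i`. -/
def chi {s : ℕ} (d : ℕ) (w : Fin s → ℕ) : ℤ :=
  ((d + 2).choose 2 : ℤ) - ∑ i, ((w i + 1).choose 2 : ℤ)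

/-- `h¹` of the class `d H - ∑ w i E i`. -/
noncomputable def hOne {K : Type} [Field K] {s : ℕ} (P : Fin s → Fin 2 → K) (d : ℕ)
    (w : Fin s → ℕ) : ℤ := hZero P d w - chi d w

/-- The `(n + 1)`-th largest multiplicity: the least `b` such that at most `n` of the multiplicities
are larger than `b`. -/
noncomputable def nth {s : ℕ} (n : ℕ) (w : Fin s → ℕ) : ℕ :=
  sInf {b : ℕ | (Finset.univ.filter fun i => b < w i).card ≤ n}

/-- The class `(d; w)` is standard. -/
def Standard {s : ℕ} (d : ℕ) (w : Fin s → ℕ) : Prop :=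
  ∀ i j k : Fin s, i ≠ j → i ≠ k → j ≠ k → w i + w j + w k ≤ d

/-- The multiplicity at the point with the index `i` is set to zero. -/
def without {s : ℕ} (w : Fin s → ℕ) (i : Fin s) : Fin s → ℕ :=
  Function.update w i 0

/-- Leaving out a point of largest multiplicity gives a class with
`0 ≤ h¹ ≤ binom (⌊(m₂ + m₃ - m₁) / 2⌋) 2` for the three largest multiplicities
`m₁ ≥ m₂ ≥ m₃` (where `m₂ + m₃ - m₁` is read as `0` if it is negative). -/
def OnePoint {K : Type} [Field K] {s : ℕ} (P : Fin s → Fin 2 → K) (d : ℕ) (w : Fin s → ℕ) :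
    Prop :=
  ∀ i : Fin s, (∀ j, w j ≤ w i) →
    0 ≤ hOne P d (without w i) ∧
      hOne P d (without w i) ≤ (((nth 1 w + nth 2 w - nth 0 w) / 2).choose 2 : ℕ)

theorem chi_eq {s : ℕ} (d : ℕ) (w : Fin s → ℕ) : chi d w = SH.chi d w := rfl

theorem hZero_eq {K : Type} [Field K] {s : ℕ} (P : Fin s → Fin 2 → K) (d : ℕ) (w : Fin s → ℕ) :
    hZero P d w = Module.finrank K ↥(W609.CR.VS (fun j => W609.CR.aff (P j)) w d) := by
  unfold hZero
  rw [SH.sys_eq]

theorem without_eq {s : ℕ} (w : Fin s → ℕ) (i : Fin s) :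
    without w i = Pool.Agent.K4H28.SP.res w (Finset.univ.erase i) := by
  funext j
  unfold without Pool.Agent.K4H28.SP.res
  by_cases h : j = i
  · subst h
    rw [Function.update_self, if_neg (Finset.notMem_erase _ _)]
  · rw [Function.update_of_ne h, if_pos (Finset.mem_erase.2 ⟨h, Finset.mem_univ _⟩)]

theorem one_point {K : Type} [Field K] [CharZero K] {s : ℕ} {P : Fin s → Fin 2 → K}
    (hP : AlgebraicIndependent ℚ (fun ij : Fin s × Fin 2 => P ij.1 ij.2)) {d : ℕ}
    {w : Fin s → ℕ} (hpos : 1 ≤ hZero P d w) : OnePoint P d w := by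
  classical
  have hg : hZero P d w = Pool.Agent.K4H28.SP.gd w d := by
    rw [hZero_eq]
    exact Pool.Agent.K4H51.PTM.vs_gd hP w d
  rw [hg] at hpos
  intro i hi
  constructor
  · have h1 := SH.chi_le_dim P d (without w i)
    unfold hOne
    rw [hZero_eq, chi_eq]
    linarith
  · have hc : (Finset.univ.erase i)ᶜ = ({i} : Finset (Fin s)) := by
      ext j
      simp
    have k1 := Pool.Agent.K4H51.PTM.one_point hpos (T := Finset.univ.erase i)
      (by rw [hc, Finset.card_singleton]) (fun a _ b hb => by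
        have h3 : b = i := by
          by_contra h4
          exact hb (Finset.mem_erase.2 ⟨h4, Finset.mem_univ _⟩)
        rw [h3]
        exact hi a)
    unfold hOne
    rw [hZero_eq, chi_eq, Pool.Agent.K4H51.PTM.vs_gd hP, without_eq]
    exact k1

/-- **Main result.** -/
theorem result (K : Type) [Field K] [CharZero K] (s : ℕ) (hs : 4 ≤ s) (P : Fin s → Fin 2 → K)
    (hP : AlgebraicIndependent ℚ (fun ij : Fin s × Fin 2 => P ij.1 ij.2))
    (d : ℕ) (w : Fin s → ℕ) (C : MvPolynomial (Fin 3) K) (hC : Curve P C d w) :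
    OnePoint P d w ∧ (hOne P d w = 0 ∨
      ∃ (Q : Fin s → Fin 2 → K) (C1 : MvPolynomial (Fin 3) K) (e : ℕ) (u : Fin s → ℕ),
        AlgebraicIndependent ℚ (fun ij : Fin s × Fin 2 => Q ij.1 ij.2) ∧ Curve Q C1 e u ∧
        Relation.ReflTransGen Quadratic (d, w) (e, u) ∧ Standard e u ∧
        e ≤ d ∧ (∀ i, u i ≤ w i) ∧
        hZero Q e u = hZero P d w ∧ hOne Q e u = hOne P d w ∧ OnePoint Q e u) := by
  classical
  obtain ⟨r, rfl⟩ : ∃ r, s = r + 4 := ⟨s - 4, by omega⟩
  obtain ⟨h1, h2, h3⟩ := SH.curve_iff.1 hC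
  have hpos : 1 ≤ hZero P d w := by
    rw [hZero_eq]
    have hfin := W609.CR.vs_fin (fun j => W609.CR.aff (P j)) w d
    have hmem : C ∈ W609.CR.VS (fun j => W609.CR.aff (P j)) w d :=
      (SH.mem_VS _ _ _ _).2 ⟨h2, fun j => (h3 j).1⟩
    exact Module.finrank_pos_iff.2 ⟨⟨C, hmem⟩, 0, fun h7 => h1.ne_zero (congrArg Subtype.val h7)⟩
  refine ⟨one_point hP hpos, ?_⟩
  by_cases h0 : hOne P d w = 0
  · exact Or.inl h0
  right
  rcases Pool.Agent.K4H51.PTM.irr_red d P hP w C h1 h2 h3 with c1 | ⟨Q, e, u, C1, a1, a2, a3, a4,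
    a5, a6, a7, a8, a9⟩
  · refine absurd ?_ h0
    unfold hOne
    rw [hZero_eq, chi_eq, c1, sub_self]
  · obtain ⟨q1, q2, q3⟩ := SH.quad_inv a5
    simp only at q1 q2 q3
    have hZ : hZero Q e u = hZero P d w := by rw [hZero_eq, hZero_eq, a9]
    have hX : chi e u = chi d w := by rw [chi_eq, chi_eq, q1]
    have hO : hOne Q e u = hOne P d w := by unfold hOne; rw [hZ, hX]
    exact ⟨Q, C1, e, u, a1, SH.curve_iff.2 ⟨a2, a3, a4⟩, SH.chain_conv a5, a6, a7, a8,
      hZ, hO, one_point a1 (by rw [hZ]; exact hpos)⟩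

end Pool.Agent.Results.MP_0dccba_ag.PrimeOnePoint
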