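import Pool.Agent.K4H51.PTM.Two

set_option autoImplicit false

/-!
# Prime divisors: `h¹ ≤ binom u₁ 2`, and `h¹ = 0` after leaving out two points

Let `X` be the blow-up of the plane at `s ≥ 4` generic points over a field of characteristic zero,
and let `C` be a prime divisor on `X` of degree `d` with multiplicities `w`. There is no condition on
`s`, on `d` or on the multiplicities. Then `h¹ (C) ≤ binom m₁ 2` for the largest multiplicity `m₁`
of `C`, and leaving out at least two points of largest multiplicities gives a class with `h¹ = 0`.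

Moreover `h¹ (C) = 0`, or finitely many quadratic transformations carry `C` to a prime divisor `C1`
(on the blow-up at other generic points) with the same `h⁰` and `h¹`, whose class `(e; u)` is
standard, whose degree and all of whose multiplicities are at most those of `C`, so that
`h¹ (C) ≤ binom u₁ 2`, and leaving out at least two points of largest multiplicities `u_i` gives a
class with `h¹ = 0`.
-/

namespace Pool.Agent.Results.MP_0dccba_ag.PrimeSuperabundance

open MvPolynomial Pool.Agent.TH167 Pool.Agent.TH167.SHDefs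

/-- `h⁰` of the class `d H - ∑ w i E i`: the dimension of the space of the forms of degree `d` with
multiplicity at least `w i` at `P i`. -/
noncomputable def hZero {K : Type} [Field K] {s : ℕ} (P : Fin s → Fin 2 → K) (d : ℕ)
    (w : Fin s → ℕ) : ℕ := Module.finrank K ↥(sys P d w)

/-- The Euler characteristic of the class `d H - ∑ w i E i`. -/
def chi {s : ℕ} (d : ℕ) (w : Fin s → ℕ) : ℤ :=
  ((d + 2).choose 2 : ℤ) - ∑ i, ((w i + 1).choose 2 : ℤ)

/-- `h¹` of the class `d H - ∑ w i E i`. -/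
noncomputable def hOne {K : Type} [Field K] {s : ℕ} (P : Fin s → Fin 2 → K) (d : ℕ)
    (w : Fin s → ℕ) : ℤ := hZero P d w - chi d w

/-- The largest multiplicity. -/
noncomputable def largest {s : ℕ} (w : Fin s → ℕ) : ℕ := sInf {b : ℕ | ∀ i, w i ≤ b}

/-- The class `(d; w)` is standard. -/
def Standard {s : ℕ} (d : ℕ) (w : Fin s → ℕ) : Prop :=
  ∀ i j k : Fin s, i ≠ j → i ≠ k → j ≠ k → w i + w j + w k ≤ d

/-- The multiplicities outside of the set `T` are set to zero. -/
def restrict {s : ℕ} (w : Fin s → ℕ) (T : Finset (Fin s)) : Fin s → ℕ :=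
  fun i => if i ∈ T then w i else 0

/-- `h¹ ≤ binom m₁ 2` for the largest multiplicity `m₁`, and if the multiplicities outside of a set
`T` are set to zero, and these are at least two largest ones, then `h¹ = 0`. -/
def TwoPoints {K : Type} [Field K] {s : ℕ} (P : Fin s → Fin 2 → K) (d : ℕ) (w : Fin s → ℕ) :
    Prop :=
  hOne P d w ≤ (largest w).choose 2 ∧
    ∀ T : Finset (Fin s), 2 ≤ Tᶜ.card → (∀ i ∈ T, ∀ j, j ∉ T → w i ≤ w j) →
      hOne P d (restrict w T) = 0

theorem chi_eq {s : ℕ} (d : ℕ) (w : Fin s → ℕ) : chi d w = SH.chi d w := rfl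

theorem hZero_eq {K : Type} [Field K] {s : ℕ} (P : Fin s → Fin 2 → K) (d : ℕ) (w : Fin s → ℕ) :
    hZero P d w = Module.finrank K ↥(W609.CR.VS (fun j => W609.CR.aff (P j)) w d) := by
  unfold hZero
  rw [SH.sys_eq]

theorem largest_eq {s : ℕ} (w : Fin s → ℕ) : largest w = Pool.Agent.K4H51.PTM.nth 0 w := by
  unfold largest Pool.Agent.K4H51.PTM.nth
  congr 1
  ext b
  rw [Set.mem_setOf_eq, Set.mem_setOf_eq, Nat.le_zero, Finset.card_eq_zero,
    Finset.filter_eq_empty_iff]
  exact ⟨fun h i _ => not_lt.2 (h i), fun h i => not_lt.1 (h (Finset.mem_univ i))⟩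

theorem two_points {K : Type} [Field K] [CharZero K] {s : ℕ} {P : Fin s → Fin 2 → K}
    (hP : AlgebraicIndependent ℚ (fun ij : Fin s × Fin 2 => P ij.1 ij.2)) {d : ℕ}
    {w : Fin s → ℕ} (hpos : 1 ≤ hZero P d w) : TwoPoints P d w := by
  have hg : hZero P d w = Pool.Agent.K4H28.SP.gd w d := by
    rw [hZero_eq]
    exact Pool.Agent.K4H51.PTM.vs_gd hP w d
  rw [hg] at hpos
  constructor
  · rw [largest_eq]
    unfold hOne
    rw [hg, chi_eq]
    exact Pool.Agent.K4H51.PTM.super_le hpos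
  · intro T hT hle
    have k1 := Pool.Agent.K4H51.PTM.two_indep hpos hT hle
    unfold hOne
    rw [hZero_eq, chi_eq, Pool.Agent.K4H51.PTM.vs_gd hP]
    have k2 : (Pool.Agent.K4H28.SP.gd (restrict w T) d : ℤ) = SH.chi d (restrict w T) := k1
    rw [k2, sub_self]

/-- **Main result.** -/
theorem result (K : Type) [Field K] [CharZero K] (s : ℕ) (hs : 4 ≤ s) (P : Fin s → Fin 2 → K)
    (hP : AlgebraicIndependent ℚ (fun ij : Fin s × Fin 2 => P ij.1 ij.2))
    (d : ℕ) (w : Fin s → ℕ) (C : MvPolynomial (Fin 3) K) (hC : Curve P C d w) :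
    TwoPoints P d w ∧ (hOne P d w = 0 ∨
      ∃ (Q : Fin s → Fin 2 → K) (C1 : MvPolynomial (Fin 3) K) (e : ℕ) (u : Fin s → ℕ),
        AlgebraicIndependent ℚ (fun ij : Fin s × Fin 2 => Q ij.1 ij.2) ∧ Curve Q C1 e u ∧
        Relation.ReflTransGen Quadratic (d, w) (e, u) ∧ Standard e u ∧
        e ≤ d ∧ (∀ i, u i ≤ w i) ∧
        hZero Q e u = hZero P d w ∧ hOne Q e u = hOne P d w ∧ TwoPoints Q e u) := by
  classical
  obtain ⟨r, rfl⟩ : ∃ r, s = r + 4 := ⟨s - 4, by omega⟩
  obtain ⟨h1, h2, h3⟩ := SH.curve_iff.1 hC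
  have hpos : 1 ≤ hZero P d w := by
    rw [hZero_eq]
    have hfin := W609.CR.vs_fin (fun j => W609.CR.aff (P j)) w d
    have hmem : C ∈ W609.CR.VS (fun j => W609.CR.aff (P j)) w d :=
      (SH.mem_VS _ _ _ _).2 ⟨h2, fun j => (h3 j).1⟩
    exact Module.finrank_pos_iff.2 ⟨⟨C, hmem⟩, 0, fun h7 => h1.ne_zero (congrArg Subtype.val h7)⟩
  refine ⟨two_points hP hpos, ?_⟩
  by_cases h0 : hOne P d w = 0
  · exact Or.inl h0
  right
  rcases Pool.Agent.K4H51.PTM.irr_red d P hP w C h1 h2 h3 with c1 | ⟨Q, e, u, C1, a1, a2, a3, a4,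
    a5, a6, a7, a8, a9⟩
  · refine absurd ?_ h0
    unfold hOne
    rw [hZero_eq, chi_eq, c1, sub_self]
  · obtain ⟨q1, q2, q3⟩ := SH.quad_inv a5
    simp only at q1 q2 q3
    have hZ : hZero Q e u = hZero P d w := by rw [hZero_eq, hZero_eq, a9]
    have hX : chi e u = chi d w := by rw [chi_eq, chi_eq, q1]
    have hO : hOne Q e u = hOne P d w := by unfold hOne; rw [hZ, hX]
    exact ⟨Q, C1, e, u, a1, SH.curve_iff.2 ⟨a2, a3, a4⟩, SH.chain_conv a5, a6, a7, a8,
      hZ, hO, two_points a1 (by rw [hZ]; exact hpos)⟩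

end Pool.Agent.Results.MP_0dccba_ag.PrimeSuperabundance
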