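import Pool.Agent.K4H51.PTM.Main

set_option autoImplicit false

/-!
# Prime divisors with `h¹ ≠ 0`: `h⁰` is at most `(m₁ - 1)(m₁₀ - 1)`

Let `X` be the blow-up of the plane at `s ≥ 4` generic points over a field of characteristic zero,
and let `C` be a prime divisor on `X` of degree `d`, with the multiplicities `m₁ ≥ m₂ ≥ ⋯`. There is
no condition on `s`, on `d` or on the multiplicities. Then `h¹ (C) = 0`, or

* `h⁰ (C) ≤ (m₁ - 1) (m₁₀ - 1)`;
* finitely many quadratic transformations carry `C` to a prime divisor `C1` (on the blow-up at other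
  generic points) with the same `h⁰` and `h¹`, whose class is standard, whose degree and all of whose
  multiplicities are at most those of `C`, and which satisfies the inequality with its own
  multiplicities `u₁ ≥ u₂ ≥ ⋯`. Moreover, if the multiplicities of `C1` outside of a set `T` of the
  points are set to zero, then the class remains special if `h⁰ (C) > (u₁ - 1) (b - 1)` for the
  largest one `b` of them.
-/

namespace Pool.Agent.Results.MP_0dccba_ag.PrimeTenthMultiplicity

open MvPolynomial Pool.Agent.TH167 Pool.Agent.TH167.SHDefs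

/-- `h⁰` of the class `d H - ∑ w i E i`: the dimension of the space of the forms of degree `d` with
multiplicity at least `w i` at `P i`. -/
noncomputable def hZero {K : Type} [Field K] {s : ℕ} (P : Fin s → Fin 2 → K) (d : ℕ)
    (w : Fin s → ℕ) : ℕ := Module.finrank K ↥(sys P d w)

/-- The Euler characteristic of the class `d H - ∑ w i E i`. -/
def chi {s : ℕ} (d : ℕ) (w : Fin s → ℕ) : ℤ :=
  ((d + 2).choose 2 : ℤ) - ∑ i, ((w i + 1).choose 2 : ℤ)

/-- `h¹` of the class `d H - ∑ w i E i`. -/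
noncomputable def hOne {K : Type} [Field K] {s : ℕ} (P : Fin s → Fin 2 → K) (d : ℕ)
    (w : Fin s → ℕ) : ℤ := hZero P d w - chi d w

/-- The `(n + 1)`-th largest multiplicity: the least `b` such that at most `n` of the multiplicities
are larger than `b`. -/
noncomputable def nth {s : ℕ} (n : ℕ) (w : Fin s → ℕ) : ℕ :=
  sInf {b : ℕ | (Finset.univ.filter fun i => b < w i).card ≤ n}

/-- The class `(d; w)` is standard. -/
def Standard {s : ℕ} (d : ℕ) (w : Fin s → ℕ) : Prop :=
  ∀ i j k : Fin s, i ≠ j → i ≠ k → j ≠ k → w i + w j + w k ≤ d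

/-- The multiplicities outside of the set `T` are set to zero. -/
def restrict {s : ℕ} (w : Fin s → ℕ) (T : Finset (Fin s)) : Fin s → ℕ :=
  fun i => if i ∈ T then w i else 0

/-- The inequality `h⁰ ≤ (m₁ - 1) (m₁₀ - 1)`. -/
def Bound {K : Type} [Field K] {s : ℕ} (P : Fin s → Fin 2 → K) (d : ℕ) (w : Fin s → ℕ) : Prop :=
  hZero P d w ≤ (nth 0 w - 1) * (nth 9 w - 1)

theorem chi_eq {s : ℕ} (d : ℕ) (w : Fin s → ℕ) : chi d w = SH.chi d w := rfl

theorem hZero_eq {K : Type} [Field K] {s : ℕ} (P : Fin s → Fin 2 → K) (d : ℕ) (w : Fin s → ℕ) :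
    hZero P d w = Module.finrank K ↥(W609.CR.VS (fun j => W609.CR.aff (P j)) w d) := by
  unfold hZero
  rw [SH.sys_eq]

/-- **Main result.** -/
theorem result (K : Type) [Field K] [CharZero K] (s : ℕ) (hs : 4 ≤ s) (P : Fin s → Fin 2 → K)
    (hP : AlgebraicIndependent ℚ (fun ij : Fin s × Fin 2 => P ij.1 ij.2))
    (d : ℕ) (w : Fin s → ℕ) (C : MvPolynomial (Fin 3) K) (hC : Curve P C d w) :
    hOne P d w = 0 ∨
      (0 < hOne P d w ∧ Bound P d w ∧
        ∃ (Q : Fin s → Fin 2 → K) (C1 : MvPolynomial (Fin 3) K) (e : ℕ) (u : Fin s → ℕ),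
          AlgebraicIndependent ℚ (fun ij : Fin s × Fin 2 => Q ij.1 ij.2) ∧ Curve Q C1 e u ∧
          Relation.ReflTransGen Quadratic (d, w) (e, u) ∧ Standard e u ∧
          e ≤ d ∧ (∀ i, u i ≤ w i) ∧
          hZero Q e u = hZero P d w ∧ hOne Q e u = hOne P d w ∧ Bound Q e u ∧
          ∀ (T : Finset (Fin s)) (b : ℕ), (∀ i, i ∉ T → u i ≤ b) →
            Special Q e (restrict u T) ∨ hZero P d w ≤ (nth 0 u - 1) * (b - 1)) := by
  classical
  obtain ⟨r, rfl⟩ : ∃ r, s = r + 4 := ⟨s - 4, by omega⟩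
  obtain ⟨h1, h2, h3⟩ := SH.curve_iff.1 hC
  have hge := SH.chi_le_dim P d w
  by_cases h0 : hOne P d w = 0
  · exact Or.inl h0
  right
  have hne : (hZero P d w : ℤ) ≠ chi d w := fun h => h0 (by unfold hOne; rw [h, sub_self])
  have hpos1 : 0 < hOne P d w := by
    unfold hOne at h0 ⊢
    rw [hZero_eq, chi_eq] at h0 ⊢
    omega
  rcases Pool.Agent.K4H51.PTM.irr_red d P hP w C h1 h2 h3 with c1 | ⟨Q, e, u, C1, a1, a2, a3, a4,
    a5, a6, a7, a8, a9⟩
  · exact absurd (by rw [hZero_eq, chi_eq]; exact c1) hne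
  · obtain ⟨q1, q2, q3⟩ := SH.quad_inv a5
    simp only at q1 q2 q3
    have hZ : hZero Q e u = hZero P d w := by rw [hZero_eq, hZero_eq, a9]
    have hX : chi e u = chi d w := by rw [chi_eq, chi_eq, q1]
    have hO : hOne Q e u = hOne P d w := by unfold hOne; rw [hZ, hX]
    have hpos : 1 ≤ hZero P d w := by
      rw [hZero_eq]
      have hfin := W609.CR.vs_fin (fun j => W609.CR.aff (P j)) w d
      have hmem : C ∈ W609.CR.VS (fun j => W609.CR.aff (P j)) w d :=
        (SH.mem_VS _ _ _ _).2 ⟨h2, fun j => (h3 j).1⟩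
      exact Module.finrank_pos_iff.2 ⟨⟨C, hmem⟩, 0, fun h7 => h1.ne_zero (congrArg Subtype.val h7)⟩
    have hg : hZero Q e u = Pool.Agent.K4H28.SP.gd u e := by
      rw [hZero_eq]
      exact Pool.Agent.K4H51.PTM.vs_gd a1 u e
    obtain ⟨b1, b2, b3⟩ := Pool.Agent.K4H51.PTM.bounds (by omega) a6
      (by rw [← hg, hZ]; exact hpos) (by rw [← hg, hZ, ← chi_eq, hX]; exact hne)
    rw [← hg] at b1
    have hBu : Bound Q e u := b1
    have hBw : Bound P d w := by
      have m0 : nth 0 u ≤ nth 0 w := Pool.Agent.K4H51.PTM.nth_mono 0 a8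
      have m9 : nth 9 u ≤ nth 9 w := Pool.Agent.K4H51.PTM.nth_mono 9 a8
      unfold Bound
      rw [← hZ]
      exact b1.trans (Nat.mul_le_mul (Nat.sub_le_sub_right m0 1) (Nat.sub_le_sub_right m9 1))
    refine ⟨hpos1, hBw, Q, C1, e, u, a1, SH.curve_iff.2 ⟨a2, a3, a4⟩, SH.chain_conv a5, a6, a7, a8,
      hZ, hO, hBu, fun T b hb => ?_⟩
    rcases b3 T b hb with h | h
    · left
      rw [SH.special_conv, SH.special_iff]
      have k1 := Pool.Agent.K4H51.PTM.vs_gd a1 (restrict u T) e
      have k2 := SH.chi_le_dim Q e (restrict u T)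
      rw [k1] at k2 ⊢
      have h' : (Pool.Agent.K4H28.SP.gd (restrict u T) e : ℤ) ≠
          max (SH.chi e (restrict u T)) 0 := h
      rcases le_total 0 (SH.chi e (restrict u T)) with h4 | h4
      · rw [max_eq_left h4] at h'
        omega
      · rw [max_eq_right h4] at h'
        omega
    · right
      rw [← hZ, hg]
      exact h

end Pool.Agent.Results.MP_0dccba_ag.PrimeTenthMultiplicity
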